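import Pool.Agent.Lib.MP_39c2b7_co.Interfaces

/-!
Module SEULER of project SA (MP_39c2b7_co): the Euler count for one side of an induced cycle.
The side `Y` is contracted to one vertex adjacent to the whole cycle.
-/

namespace StrongArb.H82

open StrongArb Classical

variable {V : Type} {G : SimpleGraph V}

/-- the side `Y` contracted to the new vertex `none`, adjacent to all of `C` -/
def quot (G : SimpleGraph V) (C : List V) (Y : Set V) : SimpleGraph (Option {v // v ∉ Y}) where
  Adj a b := match a, b with
    | some x, some y => G.Adj x.1 y.1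
    | some x, none => x.1 ∈ C
    | none, some y => y.1 ∈ C
    | none, none => False
  symm := ⟨fun a b h => by
    match a, b, h with
    | some x, some y, h => exact G.adj_symm h
    | some x, none, h => exact h
    | none, some y, h => exact h⟩
  loopless := ⟨fun a h => by
    match a, h with
    | some x, h => exact G.loopless.irrefl _ h⟩

theorem quot_ss {C : List V} {Y : Set V} (x y : {v // v ∉ Y}) :
    (quot G C Y).Adj (some x) (some y) ↔ G.Adj x.1 y.1 := Iff.rfl

theorem quot_sn {C : List V} {Y : Set V} (x : {v // v ∉ Y}) :
    (quot G C Y).Adj (some x) none ↔ x.1 ∈ C := Iff.rfl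

theorem quot_ns {C : List V} {Y : Set V} (x : {v // v ∉ Y}) :
    (quot G C Y).Adj none (some x) ↔ x.1 ∈ C := Iff.rfl

theorem quot_nn {C : List V} {Y : Set V} :
    ¬ (quot G C Y).Adj none none := fun h => h

/-- the contraction map -/
noncomputable def pr (Y : Set V) (v : V) : Option {v // v ∉ Y} :=
  if h : v ∈ Y then none else some ⟨v, h⟩

theorem pr_mem {Y : Set V} {v : V} (h : v ∈ Y) : pr Y v = none := by
  unfold pr; rw [dif_pos h]

theorem pr_not {Y : Set V} {v : V} (h : v ∉ Y) : pr Y v = some ⟨v, h⟩ := by
  unfold pr; rw [dif_neg h]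

/-- every vertex of an induced cycle has exactly two neighbours on the cycle -/
theorem two_nbrs [Fintype V] {C : List V} (hC : IsIndCycle G C) {z : V} (hz : z ∈ C) :
    (C.toFinset.filter (fun v => G.Adj z v)).card = 2 := by
  obtain ⟨i, hi, rfl⟩ := List.getElem_of_mem hz
  have hn := hC.len
  set n := C.length with hnd
  have h1 : (i + 1) % n < n := Nat.mod_lt _ (by omega)
  have h2 : (i + (n - 1)) % n < n := Nat.mod_lt _ (by omega)
  have hne : (i + 1) % n ≠ (i + (n - 1)) % n := by
    intro h
    have := Nat.ModEq.add_left_cancel' i (show i + 1 ≡ i + (n - 1) [MOD n] from h)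
    have h3 : 1 % n = (n - 1) % n := this
    rw [Nat.mod_eq_of_lt (by omega), Nat.mod_eq_of_lt (by omega)] at h3
    omega
  have key : C.toFinset.filter (fun v => G.Adj (C[i]) v) =
      {C[(i + 1) % n]'h1, C[(i + (n - 1)) % n]'h2} := by
    ext v
    simp only [Finset.mem_filter, List.mem_toFinset, Finset.mem_insert, Finset.mem_singleton]
    constructor
    · rintro ⟨hv, ha⟩
      obtain ⟨j, hj, rfl⟩ := List.getElem_of_mem hv
      rw [hC.adj i j hi hj] at ha
      rcases ha with ha | ha
      · left
        simp only [ha, ← hnd]
      · right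
        have h5 : (i + (n - 1)) % n = j := by
          rw [ha, ← hnd, Nat.mod_add_mod]
          have : j + 1 + (n - 1) = j + n := by omega
          rw [this, Nat.add_mod_right, Nat.mod_eq_of_lt (by omega)]
        simp only [h5]
    · rintro (rfl | rfl)
      · exact ⟨List.getElem_mem _, (hC.adj i _ hi h1).2 (Or.inl rfl)⟩
      · refine ⟨List.getElem_mem _, (hC.adj i _ hi h2).2 (Or.inr ?_)⟩
        rw [← hnd, Nat.mod_add_mod]
        have : i + (n - 1) + 1 = i + n := by omega
        rw [this, Nat.add_mod_right, Nat.mod_eq_of_lt (by omega)]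
  rw [key, Finset.card_pair]
  intro h
  exact hne ((hC.nodup.getElem_inj_iff).1 h)

theorem degree_sum {α : Type*} [Fintype α] (H : SimpleGraph α) :
    2 * H.edgeSet.ncard = ∑ a, ∑ b, (if H.Adj a b then 1 else 0) := by
  have h1 := H.sum_degrees_eq_twice_card_edges
  have h2 : H.edgeSet.ncard = H.edgeFinset.card := by
    rw [← SimpleGraph.coe_edgeFinset, Set.ncard_coe_finset]
  rw [h2, ← h1]
  refine Finset.sum_congr rfl fun a _ => ?_
  rw [← SimpleGraph.card_neighborFinset_eq_degree, SimpleGraph.neighborFinset_eq_filter,
    Finset.card_filter]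

theorem seuler : SideEulerStatement := by
  intro V G hG C X Y hC hS
  have : Finite V := hG.fin
  let _ : Fintype V := Fintype.ofFinite V
  set H := quot G C Y with hH
  have hCY : ∀ v ∈ C, v ∉ Y := fun v hv hY => hS.disjY v hY hv
  -- the minor map
  have hmin : MinorMap G H (fun v => some (pr Y v)) := by
    constructor
    · intro a
      match a with
      | none =>
        have : {v | some (pr Y v) = some (none : Option {v // v ∉ Y})} = Y := by
          ext v
          simp only [Set.mem_ofPred_eq, Option.some.injEq]
          constructor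
          · intro h
            by_contra hv
            rw [pr_not hv] at h
            exact absurd h (by simp)
          · intro h
            exact pr_mem h
        rw [this]
        exact hS.connY
      | some x =>
        have : {v | some (pr Y v) = some (some x)} = {x.1} := by
          ext v
          simp only [Set.mem_ofPred_eq, Option.some.injEq, Set.mem_singleton_iff]
          constructor
          · intro h
            by_cases hv : v ∈ Y
            · rw [pr_mem hv] at h
              exact absurd h (by simp)
            · rw [pr_not hv] at h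
              have := Option.some.inj h
              rw [← this]
          · intro h
            subst h
            rw [pr_not x.2]
        rw [this]
        have : Subsingleton ({x.1} : Set V) := Set.subsingleton_singleton.coe_sort
        have : Nonempty ({x.1} : Set V) := ⟨⟨x.1, rfl⟩⟩
        exact ⟨fun a b => by rw [Subsingleton.elim a b]⟩
    · intro a b hab
      match a, b, hab with
      | some x, some y, h =>
        exact ⟨x.1, y.1, by simp only [pr_not x.2], by simp only [pr_not y.2], h⟩
      | some x, none, h =>
        obtain ⟨y, hy, hxy⟩ := hS.attY x.1 h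
        exact ⟨x.1, y, by simp only [pr_not x.2], by simp only [pr_mem hy], hxy⟩
      | none, some y, h =>
        obtain ⟨x, hx, hyx⟩ := hS.attY y.1 h
        exact ⟨x, y.1, by simp only [pr_mem hx], by simp only [pr_not y.2], hyx.symm⟩
  -- connectedness
  have hstep : ∀ u v, G.Adj u v → H.Reachable (pr Y u) (pr Y v) := by
    intro u v huv
    by_cases hu : u ∈ Y <;> by_cases hv : v ∈ Y
    · rw [pr_mem hu, pr_mem hv]
    · rw [pr_mem hu, pr_not hv]
      apply SimpleGraph.Adj.reachable
      change v ∈ C
      rcases hS.cover v with h | h | h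
      · exact h
      · exact absurd huv.symm (hS.sep v h u hu)
      · exact absurd h hv
    · rw [pr_mem hv, pr_not hu]
      apply SimpleGraph.Adj.reachable
      change u ∈ C
      rcases hS.cover u with h | h | h
      · exact h
      · exact absurd huv (hS.sep u h v hv)
      · exact absurd h hu
    · rw [pr_not hu, pr_not hv]
      exact SimpleGraph.Adj.reachable huv
  have hreach : ∀ u v, H.Reachable (pr Y u) (pr Y v) := by
    intro u v
    obtain ⟨w⟩ := hG.conn.preconnected u v
    induction w with
    | nil => exact SimpleGraph.Reachable.refl _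
    | cons h _ ih => exact (hstep _ _ h).trans ih
  have hsurj : Function.Surjective (pr Y) := by
    intro a
    match a with
    | none =>
      obtain ⟨y⟩ := hS.connY.nonempty
      exact ⟨y.1, pr_mem y.2⟩
    | some x => exact ⟨x.1, pr_not x.2⟩
  have hconn : H.Connected := by
    have : Nonempty (Option {v // v ∉ Y}) := ⟨none⟩
    refine ⟨fun a b => ?_⟩
    obtain ⟨u, rfl⟩ := hsurj a
    obtain ⟨v, rfl⟩ := hsurj b
    exact hreach u v
  -- counting vertices
  have hcompl : (Finset.univ.filter (fun v : V => v ∉ Y)) = X.toFinset ∪ C.toFinset := by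
    ext v
    simp only [Finset.mem_filter, Finset.mem_univ, true_and, Finset.mem_union, Set.mem_toFinset,
      List.mem_toFinset]
    constructor
    · intro hv
      rcases hS.cover v with h | h | h
      · exact Or.inr h
      · exact Or.inl h
      · exact absurd h hv
    · rintro (h | h)
      · exact hS.disj v h
      · exact hCY v h
  have hdis : Disjoint X.toFinset C.toFinset := by
    rw [Finset.disjoint_left]
    intro v hv hv'
    rw [Set.mem_toFinset] at hv
    rw [List.mem_toFinset] at hv'
    exact hS.disjX v hv hv'
  have hsplit : ∀ f : V → ℕ, ∑ x : {v // v ∉ Y}, f x.1 =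
      ∑ x ∈ X.toFinset, f x + ∑ x ∈ C.toFinset, f x := by
    intro f
    rw [← Finset.sum_union hdis, ← hcompl]
    exact (Finset.sum_subtype (Finset.univ.filter (fun v : V => v ∉ Y)) (by simp) f).symm
  have hcC : C.toFinset.card = C.length := List.toFinset_card_of_nodup hC.nodup
  have hcard : Nat.card (Option {v // v ∉ Y}) = X.toFinset.card + C.length + 1 := by
    have h1 := hsplit (fun _ => 1)
    simp only [Finset.sum_const, smul_eq_mul, mul_one, Finset.card_univ] at h1
    rw [Nat.card_eq_fintype_card, Fintype.card_option, h1, hcC]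
  have hlen := hC.len
  have hb := hG.bound H (fun v => some (pr Y v)) hmin hconn (by rw [hcard]; omega)
  rw [hcard] at hb
  -- counting edges
  have hdeg := degree_sum H
  rw [Fintype.sum_option] at hdeg
  simp only [Fintype.sum_option] at hdeg
  simp only [hH, quot_ss, quot_sn, quot_ns, quot_nn, if_false] at hdeg
  rw [Finset.sum_add_distrib] at hdeg
  have e1 : ∑ x : {v // v ∉ Y}, (if x.1 ∈ C then 1 else 0) = C.length := by
    rw [hsplit (fun v => if v ∈ C then 1 else 0)]
    have a1 : ∑ x ∈ X.toFinset, (if x ∈ C then 1 else 0) = 0 := by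
      refine Finset.sum_eq_zero fun x hx => ?_
      rw [if_neg]
      rw [Set.mem_toFinset] at hx
      exact hS.disjX x hx
    have a2 : ∑ x ∈ C.toFinset, (if x ∈ C then 1 else 0) = C.toFinset.card := by
      rw [Finset.card_eq_sum_ones]
      refine Finset.sum_congr rfl fun x hx => ?_
      rw [if_pos (List.mem_toFinset.1 hx)]
    rw [a1, a2, hcC, zero_add]
  have e2 : ∑ x : {v // v ∉ Y}, ∑ y : {v // v ∉ Y}, (if G.Adj x.1 y.1 then 1 else 0) =
      ∑ x ∈ X.toFinset, dg G x + ∑ z ∈ C.toFinset, (dgIn G X z + 2) := by
    rw [hsplit (fun x => ∑ y : {v // v ∉ Y}, (if G.Adj x y.1 then 1 else 0))]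
    congr 1
    · refine Finset.sum_congr rfl fun x hx => ?_
      rw [Set.mem_toFinset] at hx
      rw [hsplit (fun y => if G.Adj x y then 1 else 0), ← Finset.sum_union hdis, ← hcompl,
        ← Finset.card_filter, Finset.filter_filter]
      unfold dg
      rw [← Set.ncard_coe_finset]
      congr 1
      ext y
      simp only [Finset.coe_filter, Finset.mem_univ, true_and, Set.mem_ofPred_eq,
        SimpleGraph.mem_neighborSet]
      exact ⟨fun h => h.2, fun h => ⟨fun hy => hS.sep x hx y hy h, h⟩⟩
    · refine Finset.sum_congr rfl fun z hz => ?_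
      rw [List.mem_toFinset] at hz
      rw [hsplit (fun y => if G.Adj z y then 1 else 0), ← Finset.card_filter,
        ← Finset.card_filter, two_nbrs hC hz]
      congr 1
      unfold dgIn
      rw [← Set.ncard_coe_finset]
      congr 1
      ext y
      simp only [Finset.coe_filter, Set.mem_toFinset, Set.mem_ofPred_eq]
  rw [e1, e2] at hdeg
  rw [Finset.sum_add_distrib, Finset.sum_const, hcC] at hdeg
  -- conclusion
  have f1 : (∑ᶠ x ∈ X, (6 - (dg G x : ℤ))) = 6 * (X.toFinset.card : ℤ) -
      ((∑ x ∈ X.toFinset, dg G x : ℕ) : ℤ) := by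
    rw [finsum_mem_eq_toFinset_sum, Finset.sum_sub_distrib, Finset.sum_const]
    push_cast
    ring
  have f2 : (C.map (fun z => 2 - (dgIn G X z : ℤ))).sum = 2 * (C.length : ℤ) -
      ((∑ z ∈ C.toFinset, dgIn G X z : ℕ) : ℤ) := by
    rw [← List.sum_toFinset _ hC.nodup, Finset.sum_sub_distrib, Finset.sum_const, hcC]
    push_cast
    ring
  rw [f1, f2]
  have hb' : ((H.edgeSet.ncard : ℤ)) + 6 ≤ 3 * ((X.toFinset.card : ℤ) + C.length + 1) := by
    exact_mod_cast hb
  have hdeg' : 2 * (H.edgeSet.ncard : ℤ) = ((C.length : ℤ)) + ((C.length : ℤ) +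
      (((∑ x ∈ X.toFinset, dg G x : ℕ) : ℤ) + (((∑ z ∈ C.toFinset, dgIn G X z : ℕ) : ℤ) +
      C.length * 2))) := by
    rw [hH]
    have h7 := hdeg
    rw [smul_eq_mul, zero_add] at h7
    exact_mod_cast h7
  linarith

end StrongArb.H82
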